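import Pool.Agent.W398.SG.StmC

set_option autoImplicit false

namespace Pool.Agent.W828.SG

open Pool.Agent.W37.SG Pool.Agent.W398.SG.C

section
variable {p : ℕ} [Fact p.Prime] {P T : Type} [Group P] [AddCommGroup T] [Module ℤ_[p] T]

/-- the sublattice -/
def LL (ρ : Act p P T) (T₀ : Submodule ℤ_[p] T) (N : T →ₗ[ℤ_[p]] T) (M : Submodule ℤ_[p] T₀) :
    Submodule ℤ_[p] T where
  carrier := {t | ∀ g : P, ∃ m ∈ M, N (ρ g t) = (p : ℤ_[p]) • (m : T)}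
  add_mem' := by
    intro a b ha hb g
    obtain ⟨m, hm, h1⟩ := ha g
    obtain ⟨m', hm', h2⟩ := hb g
    refine ⟨m + m', M.add_mem hm hm', ?_⟩
    rw [map_add, map_add, h1, h2, Submodule.coe_add, smul_add]
  zero_mem' := by
    intro g
    exact ⟨0, M.zero_mem, by simp⟩
  smul_mem' := by
    intro c a ha g
    obtain ⟨m, hm, h1⟩ := ha g
    refine ⟨c • m, M.smul_mem c hm, ?_⟩
    rw [map_smul, map_smul, h1, Submodule.coe_smul, smul_comm]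

lemma mem_LL {ρ : Act p P T} {T₀ : Submodule ℤ_[p] T} {N : T →ₗ[ℤ_[p]] T}
    {M : Submodule ℤ_[p] T₀} {t : T} :
    t ∈ LL ρ T₀ N M ↔ ∀ g : P, ∃ m ∈ M, N (ρ g t) = (p : ℤ_[p]) • (m : T) := Iff.rfl

open Classical in
/-- the functional -/
noncomputable def lm (T₀ : Submodule ℤ_[p] T) (N : T →ₗ[ℤ_[p]] T)
    (M : Submodule ℤ_[p] T₀) (l0 : T₀ → ZMod p) (t : T) : ZMod p :=
  if h : ∃ m : T₀, m ∈ M ∧ N t = (p : ℤ_[p]) • (m : T) then l0 h.choose else 0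

lemma lm_eq (htf : ∀ x : T, (p : ℤ_[p]) • x = 0 → x = 0) {T₀ : Submodule ℤ_[p] T}
    {N : T →ₗ[ℤ_[p]] T} {M : Submodule ℤ_[p] T₀} {l0 : T₀ → ZMod p} {t : T} {m : T₀}
    (hm : m ∈ M) (h : N t = (p : ℤ_[p]) • (m : T)) : lm T₀ N M l0 t = l0 m := by
  have hex : ∃ m : T₀, m ∈ M ∧ N t = (p : ℤ_[p]) • (m : T) := ⟨m, hm, h⟩
  unfold lm
  rw [dif_pos hex]
  have h2 := hex.choose_spec.2
  have h3 : (hex.choose : T₀) = m := by
    apply Subtype.ext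
    have h4 : (p : ℤ_[p]) • ((hex.choose : T) - (m : T)) = 0 := by
      rw [smul_sub, ← h2, ← h, sub_self]
    exact sub_eq_zero.1 (htf _ h4)
  rw [h3]

lemma restr_coe (ρ : Act p P T) (H : Subgroup P) (T₀ : Submodule ℤ_[p] T)
    (h : ∀ g ∈ H, ∀ x ∈ T₀, ρ g x ∈ T₀) (g : H) (x : T₀) :
    ((restr ρ H T₀ h g x : T₀) : T) = ρ (g : P) (x : T) := rfl

end

theorem dd0 : S_RK0 → S_DD0 := by
  intro hrk p _ P T _ _ _ _ ρ hL H T₀ N hS h hDD
  have hrank := hrk p P T ρ hL H T₀ N hS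
  obtain ⟨H', M, lam0, m0, ha, ⟨n, hb⟩, hc, hd, he, he1, hf, hg⟩ := hDD
  obtain ⟨s1, s2, s3, s4, s5, s6, -, -⟩ := hS
  have htf := hL.2.1
  have hl00 : lam0 0 = 0 := by
    have h1 := hc 0 M.zero_mem 0 M.zero_mem
    rw [add_zero] at h1
    exact left_eq_add.1 h1
  refine ⟨H'.map H.subtype, LL ρ T₀ N M, lm T₀ N M lam0, (m0 : T), ?_, ⟨n + 1, ?_⟩, ?_, ?_, ?_,
    ?_, ?_, ?_⟩
  · intro g x hx g'
    obtain ⟨m, hm, h1⟩ := hx (g' * g)
    refine ⟨m, hm, ?_⟩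
    rw [map_mul] at h1
    exact h1
  · intro x g
    refine ⟨(p : ℤ_[p]) ^ n • (⟨N (ρ g x), s3 _⟩ : T₀), hb _, ?_⟩
    rw [map_smul, map_smul, Submodule.coe_smul, smul_smul, ← pow_succ']
  · intro x hx y hy
    obtain ⟨m, hm, h1⟩ := hx 1
    obtain ⟨m', hm', h2⟩ := hy 1
    rw [map_one] at h1 h2
    have h1' : N x = (p : ℤ_[p]) • (m : T) := h1
    have h2' : N y = (p : ℤ_[p]) • (m' : T) := h2
    have h3 : N (x + y) = (p : ℤ_[p]) • ((m + m' : T₀) : T) := by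
      rw [map_add, h1', h2', Submodule.coe_add, smul_add]
    rw [lm_eq htf hm h1', lm_eq htf hm' h2', lm_eq htf (M.add_mem hm hm') h3]
    exact hc m hm m' hm'
  · intro k hk x hx
    obtain ⟨k', hk', rfl⟩ := hk
    obtain ⟨m, hm, h1⟩ := hx 1
    rw [map_one] at h1
    have h1' : N x = (p : ℤ_[p]) • (m : T) := h1
    have h2 : N (ρ (H.subtype k') x) = (p : ℤ_[p]) • ((restr ρ H T₀ h k' m : T₀) : T) := by
      rw [restr_coe]
      have h3 := s5 (k' : P) k'.2 x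
      change N (ρ (k' : P) x) = _
      rw [h3, h1', map_smul]
    rw [lm_eq htf (ha k' m hm) h2, lm_eq htf hm h1']
    exact hd k' hk' m hm
  · intro g
    by_cases hgH : g ∈ H
    · refine ⟨restr ρ H T₀ h ⟨g, hgH⟩ m0, ha _ _ he, ?_⟩
      rw [s5 g hgH, s4 _ m0.2, map_smul, restr_coe]
    · refine ⟨0, M.zero_mem, ?_⟩
      rw [s6 g hgH _ m0.2]
      simp
  · rw [lm_eq htf he (s4 _ m0.2)]
    exact he1
  · intro g hgn
    by_cases hgH : g ∈ H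
    · have h2 : N (ρ g m0) = (p : ℤ_[p]) • ((restr ρ H T₀ h ⟨g, hgH⟩ m0 : T₀) : T) := by
        rw [s5 g hgH, s4 _ m0.2, map_smul, restr_coe]
      rw [lm_eq htf (ha _ _ he) h2]
      refine hf _ ?_
      intro h3
      exact hgn ⟨⟨g, hgH⟩, h3, rfl⟩
    · have h2 : N (ρ g m0) = (p : ℤ_[p]) • ((0 : T₀) : T) := by
        rw [s6 g hgH _ m0.2]
        simp
      rw [lm_eq htf M.zero_mem h2, hl00]
  · rw [hrank, hg, Subgroup.index_map_subtype, s1]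
    ring

end Pool.Agent.W828.SG
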