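import Pool.Agent.W37.SG.Stm2

set_option autoImplicit false

namespace Pool.Agent.W828.SG

open Pool.Agent.W37.SG

section
variable {p : ℕ} [Fact p.Prime] {Q : Subgroup (Pm p)} {L : Submodule ℚ_[p] (Qf p)}
  {E : Pm p → Qf p} {D : Qf p → Qf p}

lemma it_add (H : LieHyp p Q L E D) : ∀ (n : ℕ) (a b : Qf p), a ∈ L → b ∈ L →
    D^[n] (a + b) = D^[n] a + D^[n] b := by
  intro n
  induction n with
  | zero => intro a b _ _; rfl
  | succ n ih =>
    intro a b ha hb
    rw [Function.iterate_succ_apply, Function.iterate_succ_apply, Function.iterate_succ_apply,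
      H.Dadd a ha b hb]
    exact ih _ _ (H.Dmem a ha) (H.Dmem b hb)

lemma inI_D {x : ℕ → ZMod p} {f : Qf p} (hf : InI p D x f) : InI p D x (D f) := by
  intro n
  have h := hf (n + 1)
  rw [Function.iterate_succ_apply] at h
  exact h

lemma D_brk (H : LieHyp p Q L E D) {f h : Qf p} (hf : f ∈ L) (hh : h ∈ L) :
    D (brk p D f h) = brk p D (D f) h + brk p D f (D h) := by
  rw [(H.br f hf h hh).2]
  funext x
  simp only [brk, Pi.add_apply]
  ring

lemma brk_zero (H : LieHyp p Q L E D) (x : ℕ → ZMod p) : ∀ (n : ℕ) (f h : Qf p), f ∈ L → h ∈ L →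
    InI p D x f → (D^[n] (brk p D f h)) x = 0 ∧ (D^[n] (brk p D h f)) x = 0 := by
  intro n
  induction n with
  | zero =>
    intro f h _ _ hI
    have h0 : f x = 0 := hI 0
    have h1 : D f x = 0 := hI 1
    constructor
    · change f x * D h x - h x * D f x = 0
      rw [h0, h1]; ring
    · change h x * D f x - f x * D h x = 0
      rw [h0, h1]; ring
  | succ n ih =>
    intro f h hf hh hI
    have e1 := ih (D f) h (H.Dmem f hf) hh (inI_D hI)
    have e2 := ih f (D h) hf (H.Dmem h hh) hI
    constructor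
    · rw [Function.iterate_succ_apply, D_brk H hf hh,
        it_add H n _ _ (H.br _ (H.Dmem f hf) _ hh).1 (H.br _ hf _ (H.Dmem h hh)).1,
        Pi.add_apply, e1.1, e2.1, add_zero]
    · rw [Function.iterate_succ_apply, D_brk H hh hf,
        it_add H n _ _ (H.br _ (H.Dmem h hh) _ hf).1 (H.br _ hh _ (H.Dmem f hf)).1,
        Pi.add_apply, e2.2, e1.2, add_zero]

lemma act_brk (H : LieHyp p Q L E D) {g : Pm p} (hg : g ∈ Q) {f h : Qf p} (hf : f ∈ L)
    (hh : h ∈ L) :
    brk p D (actF p E g f) (actF p E g h) = actF p E g (brk p D f h) := by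
  have e1 := H.comp g hg f hf
  have e2 := H.comp g hg h hh
  funext x
  have e3 : D (actF p E g f) x = D f (g x) + f (g x) * D (E g) x := congrFun e1 x
  have e4 : D (actF p E g h) x = D h (g x) + h (g x) * D (E g) x := congrFun e2 x
  change actF p E g f x * D (actF p E g h) x - actF p E g h x * D (actF p E g f) x
    = (f (g x) * D h (g x) - h (g x) * D f (g x)) * E g x
  rw [e3, e4]
  simp only [actF]
  ring

lemma E_one (H : LieHyp p Q L E D) (x : ℕ → ZMod p) : E 1 x = 1 := by
  have h := H.E_mul 1 Q.one_mem 1 Q.one_mem x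
  rw [mul_one] at h
  change E 1 x = E 1 x * E 1 x at h
  have h0 := H.E_ne 1 Q.one_mem x
  have h2 : E 1 x * E 1 x = E 1 x * 1 := by rw [← h, mul_one]
  exact mul_left_cancel₀ h0 h2

lemma act_inv (H : LieHyp p Q L E D) {g : Pm p} (hg : g ∈ Q) (f : Qf p) :
    actF p E g (actF p E g⁻¹ f) = f := by
  funext x
  have h := H.E_mul g⁻¹ (Q.inv_mem hg) g hg x
  rw [inv_mul_cancel, E_one H] at h
  have h1 : (g⁻¹ : Pm p) (g x) = x := Equiv.symm_apply_apply g x
  change f ((g⁻¹ : Pm p) (g x)) * E g⁻¹ (g x) * E g x = f x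
  rw [h1, mul_assoc, ← h, mul_one]

lemma act_inv' (H : LieHyp p Q L E D) {g : Pm p} (hg : g ∈ Q) (f : Qf p) :
    actF p E g⁻¹ (actF p E g f) = f := by
  have h := act_inv H (Q.inv_mem hg) f
  rw [inv_inv] at h
  exact h

lemma act_zero (H : LieHyp p Q L E D) {g : Pm p} (hg : g ∈ Q) (x : ℕ → ZMod p) :
    ∀ (n : ℕ) (f : Qf p), f ∈ L → InI p D (g x) f → (D^[n] (actF p E g f)) x = 0 := by
  intro n
  induction n with
  | zero =>
    intro f _ hI
    have h0 : f (g x) = 0 := hI 0
    change f (g x) * E g x = 0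
    rw [h0, zero_mul]
  | succ n ih =>
    intro f hf hI
    have hk : actF p E g⁻¹ (oneF p) ∈ L := H.act _ (Q.inv_mem hg) _ H.one_mem
    have h1 : D (actF p E g f) = brk p D (oneF p) (actF p E g f) := by
      funext y
      change _ = oneF p y * D (actF p E g f) y - actF p E g f y * D (oneF p) y
      rw [H.D1]
      simp [oneF]
    have h2 : brk p D (oneF p) (actF p E g f) = actF p E g (brk p D (actF p E g⁻¹ (oneF p)) f) := by
      conv_lhs => rw [← act_inv H hg (oneF p)]
      exact act_brk H hg hk hf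
    rw [Function.iterate_succ_apply, h1, h2]
    exact ih _ (H.br _ hk _ hf).1 (fun m => (brk_zero H (g x) m f _ hf hk hI).2)

end

theorem main : S_INV := by
  intro p _ Q L E D H
  refine ⟨fun x f hf hI h hh n => (brk_zero H x n f h hf hh hI).1,
    fun x f _ hI => inI_D hI, fun g hg f hf h hh => act_brk H hg hf hh, ?_⟩
  intro g hg x f hf
  constructor
  · intro hI n
    exact act_zero H hg x n f hf hI
  · intro hI n
    have h1 : (g⁻¹ : Pm p) (g x) = x := Equiv.symm_apply_apply g x
    have h2 : InI p D ((g⁻¹ : Pm p) (g x)) (actF p E g f) := by rw [h1]; exact hI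
    have h3 := act_zero H (Q.inv_mem hg) (g x) n (actF p E g f) (H.act g hg f hf) h2
    rw [act_inv' H hg] at h3
    exact h3

end Pool.Agent.W828.SG
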